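import Pool.Agent.H.MP_c3cf66_an.A

set_option autoImplicit false

namespace Pool.Agent.Results.MP_c3cf66_an.One
open Pool.Agent.H.MP_c3cf66_an

/-- the Banach space `ℓ¹(F_n)` -/
noncomputable abbrev l1 (n : ℕ) := lp (fun _ : FreeGroup (Fin n) => ℂ) 1

/-- the augmentation ideal -/
def I0 (n : ℕ) : Set (l1 n) := {f | ∑' g, f g = 0}

/-- the right ideal `x * ℓ¹(F_n)` of all convolution products `x * f` -/
def rightIdeal {n : ℕ} (x : l1 n) : Set (l1 n) :=
  {z | ∃ f : l1 n, ∀ g, z g = ∑' h, x h * f (h⁻¹ * g)}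

lemma sm {n : ℕ} (f : l1 n) : HasSum (fun g => ‖f g‖) ‖f‖ := by
  simpa using lp.hasSum_norm (p := 1) (by simp) f

theorem result (n : ℕ) (hn : 2 ≤ n) (x : l1 n) (hx : x ∈ I0 n) : closure (rightIdeal x) ≠ I0 n := by
  intro h
  let u : Fin n := ⟨0, by omega⟩
  let v : Fin n := ⟨1, by omega⟩
  have uv : u ≠ v := by simp [u, v]
  have k : ∀ (b : Bool) (y : FreeGroup (Fin n)), y ∈ FreeGroup.startsWith (v, b) → ∀ m : ℕ,
      (FreeGroup.of u)⁻¹ ^ (m + 1) * y ∈ FreeGroup.startsWith (u, false) := fun b y hy m => by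
    have st : ∀ z, z ∉ FreeGroup.startsWith (u, true) → (FreeGroup.of u)⁻¹ * z ∈
        FreeGroup.startsWith (u, false) := fun z hz => FreeGroup.startsWith_mk_mul (w := (u, false)) z hz
    induction m with
    | zero => exact (pow_one (FreeGroup.of u)⁻¹).symm ▸ st y fun c => uv (by simpa using (Option.some.inj (c.symm.trans hy) ▸ rfl : (u, true).1 = (v, b).1))
    | succ m ih => rw [pow_succ', mul_assoc]; exact st _ fun c => by simpa using c.symm.trans ih
  have H : PP (fun i => FreeGroup.of u ^ i * FreeGroup.of v * (FreeGroup.of u)⁻¹ ^ i)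
      fun b i => {y | (FreeGroup.of u)⁻¹ ^ i * y ∈ FreeGroup.startsWith (v, b)} := by
    refine ⟨fun b i _ j _ y hi hj => ?_, fun i y hy => ?_⟩
    · wlog c : i < j generalizing i j
      · exact (not_lt.1 c).eq_or_lt.elim Eq.symm fun c => (this j ‹_› i ‹_› hj hi c).symm
      obtain ⟨m, rfl⟩ := Nat.exists_eq_add_of_lt c
      have := k b _ hi m
      rw [← mul_assoc, ← pow_add, show m + 1 + i = i + m + 1 by ring] at this
      exact (uv (congrArg Prod.fst (Option.some.inj (this.symm.trans hj)))).elim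
    · simpa [mul_assoc] using! FreeGroup.startsWith_mk_mul (w := (v, true)) _ hy
  refine main H (sm x).summable hx fun η η0 i => ?_
  generalize FreeGroup.of u ^ i * FreeGroup.of v * (FreeGroup.of u)⁻¹ ^ i = s
  have m : (lp.single 1 1 1 - lp.single 1 s⁻¹ 1 : l1 n) ∈ closure (rightIdeal x) := by
    rw [h]
    simp only [I0, Set.mem_ofPred_eq, lp.coeFn_sub, Pi.sub_apply]
    rw [Summable.tsum_sub (sm _).summable.of_norm (sm _).summable.of_norm]
    simp [Pi.single_apply]
  obtain ⟨z, ⟨y, hy⟩, hz⟩ := Metric.mem_closure_iff.1 m η η0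
  refine ⟨y, (z - (lp.single 1 1 1 - lp.single 1 s⁻¹ 1) : l1 n), (sm y).summable, (sm _).summable, ?_,
    fun g => ?_⟩
  · rw [(sm _).tsum_eq, ← dist_eq_norm, dist_comm]; exact hz.le
  · simp [← hy, dl_apply, Pi.single_apply]

end Pool.Agent.Results.MP_c3cf66_an.One
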